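import Mathlib

/-!
Sets of mutually orthogonal latin rectangles viewed as packings of tuples (row, column, symbols).
-/

set_option autoImplicit false

namespace Pool.Agent.P.MP_ef1b96_co.K

open Finset

variable {P P' : Type} {m : ℕ}

/-- The coordinates: row, column and `m` symbols. -/
abbrev Ix (m : ℕ) : Type := Fin (m + 2)

theorem i10 : (1 : Ix m) ≠ 0 := Fin.zero_ne_one.symm

/-- The pair (x in coordinate k, y in coordinate l) lies in a block of `B`. -/
def Cov (B : Set (Ix m → P)) (k l : Ix m) (x y : P) : Prop := ∃ p ∈ B, p k = x ∧ p l = y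

/-- Two blocks agreeing in two coordinates are equal. -/
def Pack (B : Set (Ix m → P)) : Prop :=
  ∀ p ∈ B, ∀ p' ∈ B, ∀ k l : Ix m, k ≠ l → p k = p' k → p l = p' l → p = p'

/-- Mutually orthogonal latin rectangles: rows `G 0`, columns `G 1`, symbols `G 2`, `G 3`, ... -/
structure Des (m : ℕ) (P : Type) where
  G : Ix m → Finset P
  B : Set (Ix m → P)
  mem : ∀ p ∈ B, ∀ k, p k ∈ G k
  pack : Pack B
  cover : ∀ x ∈ G 0, ∀ y ∈ G 1, Cov B 0 1 x y

/-- The set can be extended by one row. -/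
def Des.Ext (D : Des m P) : Prop :=
  ∃ T : Finset (Ix m → P), T.card = (D.G 1).card ∧
    (∀ p ∈ T, ∀ k, k ≠ 0 → p k ∈ D.G k) ∧
    (∀ p ∈ T, ∀ p' ∈ T, ∀ k, k ≠ 0 → p k = p' k → p = p') ∧
    (∀ p ∈ T, ∀ k l, k ≠ 0 → l ≠ 0 → k ≠ l → ¬ Cov D.B k l (p k) (p l))

/-- `r` rows and `n` columns and symbols. -/
def Des.Size (D : Des m P) (r n : ℕ) : Prop :=
  (D.G 0).card = r ∧ ∀ k, k ≠ 0 → (D.G k).card = n

/-- There are `m` orthogonal `r × n` rectangles, not extendable if `mx` holds. -/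
def Has (m : ℕ) (mx : Prop) (r n : ℕ) : Prop :=
  ∃ (P : Type) (D : Des m P), D.Size r n ∧ (mx → ¬ D.Ext)

theorem Cov.symm {B : Set (Ix m → P)} {k l : Ix m} {x y : P} (h : Cov B k l x y) :
    Cov B l k y x := by
  obtain ⟨p, hp, h1, h2⟩ := h
  exact ⟨p, hp, h2, h1⟩

/-- In an extension every point of a group `k ≠ 0` is used. -/
theorem ext_surj (D : Des m P) {r n : ℕ} (hs : D.Size r n) {T : Finset (Ix m → P)}
    (hc : T.card = (D.G 1).card) (hm : ∀ p ∈ T, ∀ k, k ≠ 0 → p k ∈ D.G k)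
    (hi : ∀ p ∈ T, ∀ p' ∈ T, ∀ k, k ≠ 0 → p k = p' k → p = p') (k : Ix m) (hk : k ≠ 0) :
    ∀ x ∈ D.G k, ∃ p ∈ T, p k = x := by
  intro x hx
  have h := Finset.surj_on_of_inj_on_of_card_le (s := T) (t := D.G k) (fun p _ => p k)
    (fun p hp => hm p hp k hk) (fun p p' hp hp' h => hi p hp p' hp' k hk h)
    (by rw [hc, hs.2 k hk, hs.2 1 i10]) x hx
  obtain ⟨p, hp, h⟩ := h
  exact ⟨p, hp, h.symm⟩

/-- The space barrier. -/
theorem not_ext_of_barrier (D : Des m P) {r n : ℕ} (hs : D.Size r n) (X : Finset P)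
    (hI : ∀ k, k ≠ 0 → X ⊆ D.G k)
    (hcov : ∀ k l, k ≠ 0 → l ≠ 0 → k ≠ l → ∀ x ∈ X, ∀ y ∈ X, Cov D.B k l x y)
    (hcard : n < (m + 1) * X.card) : ¬ D.Ext := by
  classical
  rintro ⟨T, hc, hm, hi, hu⟩
  have hge : ∀ k ∈ univ.erase (0 : Ix m), X.card ≤ (T.filter (fun p => p k ∈ X)).card := by
    intro k hk
    apply Finset.card_le_card_of_surjOn (fun p => p k)
    intro x hx
    obtain ⟨p, hp, h⟩ := ext_surj D hs hc hm hi k (ne_of_mem_erase hk) x
      (hI k (ne_of_mem_erase hk) hx)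
    refine ⟨p, ?_, h⟩
    simp only [coe_filter, Set.mem_ofPred_eq]
    exact ⟨hp, h ▸ hx⟩
  have h1 := card_nsmul_le_sum _ _ _ hge
  rw [← card_biUnion, card_erase_of_mem (mem_univ _), card_univ, Fintype.card_fin] at h1
  · have h2 := h1.trans (card_le_card (biUnion_subset.2 fun k _ => filter_subset _ T))
    rw [hc, hs.2 1 i10] at h2
    exact h2.not_gt hcard
  · intro k hk l hl hkl
    rw [Function.onFun, Finset.disjoint_left]
    intro p h1 h2
    rw [mem_filter] at h1 h2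
    exact hu p h1.1 k l (ne_of_mem_erase hk) (ne_of_mem_erase hl) hkl
      (hcov k l (ne_of_mem_erase hk) (ne_of_mem_erase hl) hkl _ h1.2 _ h2.2)

/-- A set of squares covers all pairs. -/
theorem full_of_square (D : Des m P) {n : ℕ} (hs : D.Size n n) (k l : Ix m) (hkl : k ≠ l) :
    ∀ x ∈ D.G k, ∀ y ∈ D.G l, Cov D.B k l x y := by
  classical
  have hcard : ∀ k, (D.G k).card = n := by
    intro k
    by_cases hk : k = 0
    · rw [hk]; exact hs.1
    · exact hs.2 k hk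
  choose blk hb h0 h1 using D.cover
  intro x hx y hy
  have h := Finset.surj_on_of_inj_on_of_card_le (s := D.G 0 ×ˢ D.G 1) (t := D.G k ×ˢ D.G l)
    (fun z hz => (blk z.1 (mem_product.1 hz).1 z.2 (mem_product.1 hz).2 k,
      blk z.1 (mem_product.1 hz).1 z.2 (mem_product.1 hz).2 l))
    (fun z hz => mem_product.2 ⟨D.mem _ (hb _ _ _ _) k, D.mem _ (hb _ _ _ _) l⟩)
    (fun z z' hz hz' h => by
      have h' := D.pack _ (hb _ _ _ _) _ (hb _ _ _ _) k l hkl (congrArg Prod.fst h)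
        (congrArg Prod.snd h)
      have e0 := congrFun h' 0
      have e1 := congrFun h' 1
      rw [h0, h0] at e0
      rw [h1, h1] at e1
      exact Prod.ext e0 e1)
    (by simp [card_product, hcard]) (x, y) (mem_product.2 ⟨hx, hy⟩)
  obtain ⟨z, hz, h⟩ := h
  exact ⟨_, hb _ _ _ _, (congrArg Prod.fst h).symm, (congrArg Prod.snd h).symm⟩

/-- Relabelling the points. -/
theorem relabel (D : Des m P) (G' : Ix m → Finset P') (hG : ∀ k, (G' k).card = (D.G k).card) :
    ∃ D' : Des m P', D'.G = G' ∧ (¬ D.Ext → ¬ D'.Ext) := by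
  classical
  have he : ∀ k, Nonempty (D.G k ≃ G' k) := fun k =>
    ⟨Fintype.equivOfCardEq (by simp [hG k])⟩
  let e : ∀ k, D.G k ≃ G' k := fun k => (he k).some
  let f : ∀ p ∈ D.B, Ix m → P' := fun p hp k => (e k ⟨p k, D.mem p hp k⟩ : P')
  have hf : ∀ p hp p' hp' k, f p hp k = f p' hp' k → p k = p' k := by
    intro p hp p' hp' k h
    have := (e k).injective (Subtype.ext h)
    exact congrArg Subtype.val this
  refine ⟨⟨G', {q | ∃ p hp, q = f p hp}, ?_, ?_, ?_⟩, rfl, ?_⟩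
  · rintro q ⟨p, hp, rfl⟩ k
    exact (e k _).2
  · rintro q ⟨p, hp, rfl⟩ q' ⟨p', hp', rfl⟩ k l hkl h1 h2
    have := D.pack p hp p' hp' k l hkl (hf p hp p' hp' k h1) (hf p hp p' hp' l h2)
    subst this
    rfl
  · intro x hx y hy
    obtain ⟨p, hp, h0, h1⟩ := D.cover _ ((e 0).symm ⟨x, hx⟩).2 _ ((e 1).symm ⟨y, hy⟩).2
    refine ⟨f p hp, ⟨p, hp, rfl⟩, ?_, ?_⟩
    · have : (⟨p 0, D.mem p hp 0⟩ : D.G 0) = (e 0).symm ⟨x, hx⟩ := Subtype.ext h0
      simp only [f, this, Equiv.apply_symm_apply]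
    · have : (⟨p 1, D.mem p hp 1⟩ : D.G 1) = (e 1).symm ⟨y, hy⟩ := Subtype.ext h1
      simp only [f, this, Equiv.apply_symm_apply]
  · rintro hD ⟨T, hc, hm, hi, hu⟩
    apply hD
    simp only at hc hm hu
    let g : ∀ q ∈ T, Ix m → P := fun q hq k =>
      if hk : k = 0 then ((e 1).symm ⟨q 1, hm q hq 1 i10⟩ : P)
      else ((e k).symm ⟨q k, hm q hq k hk⟩ : P)
    have hg : ∀ q hq k (hk : k ≠ 0), g q hq k = ((e k).symm ⟨q k, hm q hq k hk⟩ : P) := by
      intro q hq k hk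
      simp only [g, dif_neg hk]
    have hginj : ∀ q hq q' hq' k, k ≠ 0 → g q hq k = g q' hq' k → q = q' := by
      intro q hq q' hq' k hk h
      rw [hg q hq k hk, hg q' hq' k hk] at h
      have := (e k).symm.injective (Subtype.ext h)
      exact hi q hq q' hq' k hk (congrArg Subtype.val this)
    refine ⟨T.attach.image (fun q => g q.1 q.2), ?_, ?_, ?_, ?_⟩
    · rw [card_image_of_injective, card_attach, hc, hG]
      intro q q' h
      exact Subtype.ext (hginj _ q.2 _ q'.2 1 i10 (congrFun h 1))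
    · intro p hp k hk
      obtain ⟨q, -, rfl⟩ := mem_image.1 hp
      rw [hg q.1 q.2 k hk]
      exact ((e k).symm _).2
    · intro p hp p' hp' k hk h
      obtain ⟨q, -, rfl⟩ := mem_image.1 hp
      obtain ⟨q', -, rfl⟩ := mem_image.1 hp'
      have : q = q' := Subtype.ext (hginj _ q.2 _ q'.2 k hk h)
      rw [this]
    · intro p hp k l hk hl hkl
      obtain ⟨q, -, rfl⟩ := mem_image.1 hp
      rintro ⟨b, hb, h1, h2⟩
      apply hu q.1 q.2 k l hk hl hkl
      refine ⟨f b hb, ⟨b, hb, rfl⟩, ?_, ?_⟩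
      · rw [hg q.1 q.2 k hk] at h1
        have : (⟨b k, D.mem b hb k⟩ : D.G k) = (e k).symm ⟨q.1 k, hm q.1 q.2 k hk⟩ :=
          Subtype.ext h1
        simp only [f, this, Equiv.apply_symm_apply]
      · rw [hg q.1 q.2 l hl] at h2
        have : (⟨b l, D.mem b hb l⟩ : D.G l) = (e l).symm ⟨q.1 l, hm q.1 q.2 l hl⟩ :=
          Subtype.ext h2
        simp only [f, this, Equiv.apply_symm_apply]

theorem Has.relabel {mx : Prop} {r n : ℕ} (h : Has m mx r n) (G' : Ix m → Finset P')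
    (h0 : (G' 0).card = r) (h1 : ∀ k, k ≠ 0 → (G' k).card = n) :
    ∃ D' : Des m P', D'.G = G' ∧ (mx → ¬ D'.Ext) := by
  obtain ⟨P, D, hs, hm⟩ := h
  obtain ⟨D', h2, h3⟩ := K.relabel D G' (by
    intro k
    by_cases hk : k = 0
    · rw [hk, h0, hs.1]
    · rw [h1 k hk, hs.2 k hk])
  exact ⟨D', h2, fun h => h3 (hm h)⟩

/-- Deleting rows. -/
theorem Has.restrict {mx : Prop} {r n r' : ℕ} (h : Has m mx r n) (hr : r' ≤ r) :
    Has m False r' n := by
  classical
  obtain ⟨P, D, hs, -⟩ := h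
  obtain ⟨S, hS, hc⟩ := Finset.exists_subset_card_eq (s := D.G 0) (n := r') (by rw [hs.1]; exact hr)
  refine ⟨P, ⟨fun k => if k = 0 then S else D.G k, {p | p ∈ D.B ∧ p 0 ∈ S}, ?_, ?_, ?_⟩, ⟨?_, ?_⟩,
    False.elim⟩
  · rintro p ⟨hp, h0⟩ k
    by_cases hk : k = 0
    · simp only [hk, if_true]; exact h0
    · simp only [hk, if_false]; exact D.mem p hp k
  · rintro p ⟨hp, -⟩ p' ⟨hp', -⟩
    exact D.pack p hp p' hp'
  · intro x hx y hy
    simp only [if_true] at hx
    rw [if_neg i10] at hy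
    obtain ⟨p, hp, h0, h1⟩ := D.cover x (hS hx) y hy
    exact ⟨p, ⟨hp, h0 ▸ hx⟩, h0, h1⟩
  · simp only [if_true]; exact hc
  · intro k hk
    simp only [hk, if_false]
    exact hs.2 k hk

theorem Pack.mono {B B' : Set (Ix m → P)} (h : Pack B) (h' : B' ⊆ B) : Pack B' :=
  fun p hp p' hp' => h p (h' hp) p' (h' hp')

theorem Cov.mono {B B' : Set (Ix m → P)} {k l : Ix m} {x y : P} (h : Cov B k l x y)
    (h' : B ⊆ B') : Cov B' k l x y :=
  let ⟨p, hp, e⟩ := h; ⟨p, h' hp, e⟩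

theorem Pack.union {B B' : Set (Ix m → P)} (h : Pack B) (h' : Pack B') (A : Set P)
    (h1 : ∀ p ∈ B, ∀ k, k ≠ 0 → p k ∈ A) (h2 : ∀ p ∈ B', ∀ k, k ≠ 0 → p k ∉ A) :
    Pack (B ∪ B') := by
  have key : ∀ p ∈ B, ∀ p' ∈ B', ∀ k l, k ≠ l → p k = p' k → p l = p' l → False := by
    intro p hp p' hp' k l hkl e1 e2
    by_cases hk : k = 0
    · have hl : l ≠ 0 := fun e => hkl (hk.trans e.symm)
      exact h2 p' hp' l hl (e2 ▸ h1 p hp l hl)
    · exact h2 p' hp' k hk (e1 ▸ h1 p hp k hk)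
  rintro p (hp | hp) p' (hp' | hp') k l hkl e1 e2
  · exact h p hp p' hp' k l hkl e1 e2
  · exact (key p hp p' hp' k l hkl e1 e2).elim
  · exact (key p' hp' p hp k l hkl e1.symm e2.symm).elim
  · exact h' p hp p' hp' k l hkl e1 e2

/-- A design with prescribed rows and points. -/
theorem Has.on {mx : Prop} {r n : ℕ} (h : Has m mx r n) (V U : Finset P') (hV : V.card = r)
    (hU : U.card = n) :
    ∃ D : Des m P', D.G 0 = V ∧ (∀ k, k ≠ 0 → D.G k = U) ∧ (mx → ¬ D.Ext) := by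
  obtain ⟨D, hG, hD⟩ := h.relabel (fun k => if k = 0 then V else U) (by simp [hV])
    (by intro k hk; simp [hk, hU])
  exact ⟨D, by simp [hG], fun k hk => by simp [hG, hk], hD⟩

/-- A set of squares on a prescribed set of points. -/
theorem Has.sq {n : ℕ} (h : Has m False n n) (U : Finset P') (hU : U.card = n) :
    ∃ B : Set (Ix m → P'), Pack B ∧ (∀ p ∈ B, ∀ k, p k ∈ U) ∧
      ∀ k l, k ≠ l → ∀ x ∈ U, ∀ y ∈ U, Cov B k l x y := by
  obtain ⟨D, hG, -⟩ := h.relabel (fun _ => U) hU fun _ _ => hU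
  have hs : D.Size n n := ⟨by rw [hG]; exact hU, fun k _ => by rw [hG]; exact hU⟩
  refine ⟨D.B, D.pack, fun p hp k => ?_, fun k l hkl x hx y hy =>
    full_of_square D hs k l hkl x (by rw [hG]; exact hx) y (by rw [hG]; exact hy)⟩
  have := D.mem p hp k
  rwa [hG] at this

theorem has_zero (r : ℕ) : Has m False r 0 :=
  ⟨ℕ, ⟨fun k => if k = 0 then range r else ∅, ∅, by simp, by simp [Pack], by simp⟩,
    ⟨by simp, fun k hk => by simp [hk]⟩, False.elim⟩

/-- Direct sum of squares of order `r` and `r × l` rectangles, `l < m r`. -/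
theorem has_sum {r l : ℕ} (h1 : Has m False r r) (h2 : Has m False r l) (hl : l < m * r) :
    Has m True r (r + l) := by
  classical
  obtain ⟨B, p1, m1, c1⟩ := h1.sq (range r) (by simp)
  obtain ⟨D2, g0, g1, -⟩ := h2.on (range r) (Ico r (r + l)) (by simp) (by simp)
  have m2 : ∀ p ∈ D2.B, ∀ k, k ≠ 0 → r ≤ p k ∧ p k < r + l := fun p hp k hk => by
    simpa [g1 k hk] using D2.mem p hp k
  let D : Des m ℕ := ⟨fun k => if k = 0 then range r else range (r + l), B ∪ D2.B, by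
      rintro p (hp | hp) k
      · have := m1 p hp k
        split_ifs
        · exact this
        · rw [mem_range] at this ⊢; omega
      · split_ifs with hk
        · rw [hk, ← g0]; exact D2.mem p hp 0
        · exact mem_range.2 (m2 p hp k hk).2,
    p1.union D2.pack (range r : Finset ℕ) (fun p hp k _ => m1 p hp k)
      fun p hp k hk => by simpa using (m2 p hp k hk).1, by
      intro x hx y hy
      simp only [if_true] at hx
      rw [if_neg i10, mem_range] at hy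
      by_cases hyr : y < r
      · exact (c1 0 1 i10.symm x hx y (mem_range.2 hyr)).mono Set.subset_union_left
      · exact (D2.cover x (g0 ▸ hx) y (by simp [g1 1 i10, hy]; omega)).mono
          Set.subset_union_right⟩
  have hs : D.Size r (r + l) := ⟨by simp [D], fun k hk => by simp [D, hk]⟩
  refine ⟨ℕ, D, hs, fun _ => not_ext_of_barrier D hs (range r) ?_ ?_ ?_⟩
  · intro k hk x hx
    simp only [D, hk, if_false, mem_range] at hx ⊢
    omega
  · exact fun k l _ _ hkl x hx y hy => (c1 k l hkl x hx y hy).mono Set.subset_union_left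
  · rw [card_range, add_mul]; omega

/-- Rectangles developed from a difference matrix over a group. -/
theorem has_dm {A : Type} [AddCommGroup A] [Fintype A] (mx : Prop) (R : Finset A)
    (f : Ix m → A → A)
    (hf : ∀ k l, k ≠ 0 → l ≠ 0 → k ≠ l → Set.InjOn (fun i => f k i - f l i) R)
    (hx : mx → ∀ x : Ix m → A, ∃ k l, k ≠ 0 ∧ l ≠ 0 ∧ k ≠ l ∧ ∃ i ∈ R, x k - x l = f k i - f l i) :
    Has m mx R.card (Fintype.card A) := by
  classical
  let b : A → A → Ix m → A := fun i v k => if k = 0 then i else v + f k i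
  have b0 : ∀ i v, b i v 0 = i := fun i v => if_pos rfl
  have b1 : ∀ i v k, k ≠ 0 → b i v k = v + f k i := fun i v k hk => if_neg hk
  refine ⟨A, ⟨fun k => if k = 0 then R else univ, {p | ∃ i ∈ R, ∃ v, p = b i v}, ?_, ?_, ?_⟩,
    ⟨by simp, fun k hk => by simp [hk]⟩, ?_⟩
  · rintro p ⟨i, hi, v, rfl⟩ k
    split_ifs with hk
    · rwa [hk, b0]
    · exact mem_univ _
  · rintro p ⟨i, hi, v, rfl⟩ p' ⟨i', hi', v', rfl⟩ k l hkl e1 e2
    have key : ∀ k, k ≠ 0 → i = i' → b i v k = b i' v' k → b i v = b i' v' := by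
      rintro k hk rfl e
      rw [b1 _ _ _ hk, b1 _ _ _ hk] at e
      rw [add_right_cancel e]
    by_cases hk : k = 0
    · rw [hk, b0, b0] at e1
      exact key l (fun e => hkl (hk.trans e.symm)) e1 e2
    by_cases hl : l = 0
    · rw [hl, b0, b0] at e2
      exact key k hk e2 e1
    refine key k hk (hf k l hk hl hkl hi hi' ?_) e1
    rw [b1 _ _ _ hk, b1 _ _ _ hk] at e1
    rw [b1 _ _ _ hl, b1 _ _ _ hl] at e2
    change f k i - f l i = f k i' - f l i'
    rw [← add_sub_add_left_eq_sub _ _ v, e1, e2, add_sub_add_left_eq_sub]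
  · intro x hx y _
    exact ⟨b x (y - f 1 x), ⟨x, by simpa using hx, _, rfl⟩, b0 _ _, by rw [b1 _ _ _ i10]; simp⟩
  · rintro hmx ⟨T, hc, -, -, hu⟩
    obtain ⟨x, hxT⟩ : T.Nonempty := by
      rw [← card_pos, hc]
      simp [Fintype.card_pos]
    obtain ⟨k, l, hk, hl, hkl, i, hi, e⟩ := hx hmx x
    refine hu x hxT k l hk hl hkl ⟨b i (x l - f l i), ⟨i, hi, _, rfl⟩, ?_, ?_⟩
    · rw [b1 _ _ _ hk, eq_add_of_sub_eq e]; abel
    · rw [b1 _ _ _ hl]; simp

end Pool.Agent.P.MP_ef1b96_co.K
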