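import Pool.Agent.P.MP_ef1b96_co.K.Wilson

/-!
Existence of maximal sets of orthogonal latin rectangles for all large orders.
-/

set_option autoImplicit false

namespace Pool.Agent.P.MP_ef1b96_co.K

open Finset
open scoped Nat

variable {m : ℕ}

/-! ### Many orthogonal squares -/

theorem has_ring {A : Type} [CommRing A] [Fintype A] (c : Ix m → A)
    (hc : ∀ k l, k ≠ l → IsUnit (c k - c l)) : Has m False (Fintype.card A) (Fintype.card A) :=
  has_dm False univ (fun k i => c k * i) (fun k l _ _ hkl i _ j _ e =>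
    (hc k l hkl).mul_left_cancel (by simpa only [sub_mul] using e)) False.elim

theorem has_cop {t N : ℕ} (hN : m + 2 ≤ N) (h : ∀ p, p.Prime → p ≤ N → ¬ p ∣ t) :
    Has m False t t := by
  have : NeZero t := ⟨by rintro rfl; exact h 2 Nat.prime_two (by omega) (dvd_zero 2)⟩
  have key : ∀ k l : Ix m, l < k → IsUnit (((k : ℕ) : ZMod t) - (l : ℕ)) := fun k l hkl => by
    rw [← Nat.cast_sub (le_of_lt hkl), ZMod.isUnit_iff_coprime]
    refine Nat.coprime_of_dvd fun p hp h1 => h p hp ?_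
    have := Nat.le_of_dvd (Nat.sub_pos_of_lt hkl) h1
    omega
  have := has_ring (m := m) (fun k => ((k : ℕ) : ZMod t)) fun k l hkl => by
    rcases lt_or_gt_of_ne hkl with h | h
    · rw [← neg_sub]; exact (key l k h).neg
    · exact key k l h
  rwa [ZMod.card] at this

theorem has_pow {a : ℕ} (h : m + 2 ≤ a) : Has m False (2 ^ a) (2 ^ a) := by
  let _ := Fintype.ofFinite (GaloisField 2 a)
  have hc : Fintype.card (GaloisField 2 a) = 2 ^ a := by
    rw [← Nat.card_eq_fintype_card, GaloisField.card 2 a (by omega)]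
  obtain ⟨c⟩ := Function.Embedding.nonempty_of_card_le (α := Ix m) (β := GaloisField 2 a) (by
    rw [hc, Fintype.card_fin]
    exact h.trans Nat.lt_two_pow_self.le)
  rw [← hc]
  exact has_ring c fun k l hkl => (sub_ne_zero.2 (c.injective.ne hkl)).isUnit

theorem ex_mod (b Q t : ℕ) (hQ : 0 < Q) : ∃ x, b ≤ x ∧ x < b + Q ∧ x ≡ t [MOD Q] := by
  obtain ⟨Q, rfl⟩ := Nat.exists_eq_add_of_lt hQ
  refine ⟨b + (t + Q * b) % (0 + Q + 1), by omega, Nat.add_lt_add_left (Nat.mod_lt _ hQ) _, ?_⟩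
  refine ((Nat.mod_modEq _ _).add_left b).trans ?_
  rw [show b + (t + Q * b) = t + (0 + Q + 1) * b by ring]
  exact Nat.add_mul_mod_self_left _ _ _

theorem ces_step {w : ℕ} (h0 : Has m False w w) (h1 : Has m False (w + 1) (w + 1))
    (hw : ∀ p, p.Prime → p ≤ m + 3 → p ≠ 2 → (w : ZMod p) = 1) :
    ∃ N, ∀ n, N ≤ n → (n + w) % 2 = 1 → Has m False n n := by
  refine ⟨(w + 1) * (w * ((m + 3)! + 1)), fun n hn hpar => ?_⟩
  let A := ∏ p ∈ (range (m + 4)).filter (fun p => p.Prime ∧ ¬ p ∣ 2 * n), p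
  have hA : ∀ p, p.Prime → p ≤ m + 3 → (p ∣ A ↔ ¬ p ∣ 2 * n) := fun p hp hle => by
    rw [hp.prime.dvd_finsetProd_iff]
    refine ⟨?_, fun h => ⟨p, mem_filter.2 ⟨mem_range.2 (by omega), hp, h⟩, dvd_rfl⟩⟩
    rintro ⟨x, hx, h⟩
    obtain ⟨-, h1, h2⟩ := mem_filter.1 hx
    rwa [(Nat.prime_dvd_prime_iff_eq hp h1).1 h]
  obtain ⟨t, t1, t2, t3⟩ := ex_mod (n / (w + 1) + 1) (m + 3)! (2 * n + A) (Nat.factorial_pos _)
  have c1 : w * ((m + 3)! + 1) ≤ n / (w + 1) :=
    (Nat.le_div_iff_mul_le (by omega)).2 (by rwa [mul_comm])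
  have c2 := Nat.mul_div_le n (w + 1)
  have c3 := Nat.lt_mul_div_succ n (show 0 < w + 1 by omega)
  obtain ⟨u, hu⟩ : ∃ u, n = w * t + u := Nat.exists_eq_add_of_le (by nlinarith)
  have hut : u ≤ t := by nlinarith
  have t4 : ∀ p, p.Prime → p ≤ m + 3 → t ≡ 2 * n + A [MOD p] := fun p hp hle =>
    t3.of_dvd (hp.dvd_factorial.2 hle)
  have ht : ∀ p, p.Prime → p ≤ m + 3 → ¬ p ∣ t := fun p hp hle h => by
    have h2 := ((t4 p hp hle).dvd_iff dvd_rfl).1 h
    by_cases h3 : p ∣ 2 * n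
    · exact (hA p hp hle).1 ((Nat.dvd_add_right h3).1 h2) h3
    · exact h3 ((Nat.dvd_add_left ((hA p hp hle).2 h3)).1 h2)
  have hu' : ∀ p, p.Prime → p ≤ m + 3 → ¬ p ∣ u := fun p hp hle h => by
    by_cases h2 : p = 2
    · subst h2
      have h3 : t % 2 = 1 := by have := ht 2 hp hle; omega
      have h4 := Nat.mul_mod w t 2
      rw [h3, mul_one, Nat.mod_mod] at h4
      omega
    have e1 : (n : ZMod p) = w * t + u := by rw [hu]; push_cast; rfl
    rw [hw p hp hle h2, (ZMod.natCast_eq_zero_iff _ _).2 h,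
      (ZMod.natCast_eq_natCast_iff _ _ _).2 (t4 p hp hle)] at e1
    have h4 : p ∣ n + A := (ZMod.natCast_eq_zero_iff _ _).1 (by
      push_cast at e1 ⊢
      linear_combination -e1)
    by_cases h3 : p ∣ 2 * n
    · have h5 : p ∣ n := (hp.dvd_mul.1 h3).resolve_left fun a =>
        h2 ((Nat.prime_dvd_prime_iff_eq hp Nat.prime_two).1 a)
      exact (hA p hp hle).1 ((Nat.dvd_add_right h5).1 h4) h3
    · exact h3 (((Nat.dvd_add_left ((hA p hp hle).2 h3)).1 h4).mul_left 2)
  rw [hu]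
  exact has_hole h0 h1 (has_cop le_rfl ht) le_rfl hut (has_cop (by omega) hu')

/-- The theorem of Chowla, Erdos and Straus. -/
theorem has_mols (m : ℕ) : ∃ N, ∀ n, N ≤ n → Has m False n n := by
  set a := (m + 3)! with ha
  have h0 : m + 3 ≤ a := Nat.self_le_factorial _
  have h1 : ∀ p, p.Prime → p ≤ m + 3 → p ≠ 2 → (2 : ZMod p) ^ a = 1 ∧ (2 : ZMod p) ≠ 0 := by
    intro p hp hle h2
    have := Fact.mk hp
    have h3 : (2 : ZMod p) ≠ 0 := fun e => h2 ((Nat.prime_dvd_prime_iff_eq hp Nat.prime_two).1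
      ((ZMod.natCast_eq_zero_iff 2 p).1 (by exact_mod_cast e)))
    obtain ⟨c, hc⟩ : p - 1 ∣ a := Nat.dvd_factorial (by have := hp.two_le; omega) (by omega)
    exact ⟨by rw [hc, pow_mul, ZMod.pow_card_sub_one_eq_one h3, one_pow], h3⟩
  obtain ⟨b, hb⟩ : ∃ b, 2 ^ a = 2 * b + 2 := by
    obtain ⟨c, hc⟩ := dvd_pow_self 2 (show a ≠ 0 by omega)
    have := Nat.two_pow_pos a
    exact ⟨c - 1, by omega⟩
  have h2 : ∀ p, p.Prime → p ≤ m + 3 → p ≠ 2 → ((4 * b + 3 : ℕ) : ZMod p) = 1 := by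
    intro p hp hle h
    have e := congrArg (Nat.cast : ℕ → ZMod p) hb
    push_cast at e ⊢
    linear_combination 2 * (h1 p hp hle h).1 - 2 * e
  obtain ⟨N, hN⟩ := ces_step (m := m) (w := 2 ^ a) (has_pow (by omega))
    (has_cop (N := m + 3) (by omega) fun p hp hle h => by
      by_cases e : p = 2
      · subst e; omega
      · have := (ZMod.natCast_eq_zero_iff _ _).2 h
        push_cast at this
        exact (h1 p hp hle e).2 (by linear_combination this - (h1 p hp hle e).1))
    fun p hp hle h => by simpa using (h1 p hp hle h).1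
  obtain ⟨N', hN'⟩ := ces_step (m := m) (w := 4 * b + 3)
    (has_cop (N := m + 3) (by omega) fun p hp hle h => by
      by_cases e : p = 2
      · subst e; omega
      · have := Fact.mk hp
        exact zero_ne_one (((ZMod.natCast_eq_zero_iff _ _).2 h).symm.trans (h2 p hp hle e)))
    (by
      rw [show 4 * b + 3 + 1 = 2 ^ (a + 1) by omega]
      exact has_pow (by omega)) h2
  refine ⟨N + N', fun n hn => ?_⟩
  rcases Nat.mod_two_eq_zero_or_one n with h | h
  · exact hN' n (by omega) (by omega)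
  · exact hN n (by omega) (by omega)

/-! ### A bounded number of missing rows -/

theorem base_small {d : ℕ} (hd : d < m) : Has m True 1 (d + 1) := by
  have := has_dm (m := m) (A := ZMod (d + 1)) True {0} (fun _ _ => 0)
    (fun _ _ _ _ _ => by simp) fun _ x => by
      obtain ⟨k, hk, l, hl, hkl, e⟩ := exists_ne_map_eq_of_card_lt_of_maps_to
        (s := univ.erase (0 : Ix m)) (t := univ) (f := x) (by simpa using hd) (by simp)
      exact ⟨k, l, ne_of_mem_erase hk, ne_of_mem_erase hl, hkl, 0, by simp, by simp [e]⟩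
  simpa using this

theorem base_arith {e L p x y z : ℕ} (he : 1 ≤ e) (hL : L = (e + 1) ^ 2)
    (hp : (e + 2) * L + (e + 2) ≤ p) (hx : x ≤ e) (hy : y < e ∨ y = L + e) (h1 : L ≤ z)
    (h2 : z ≤ L + e) : (e + 1) * y < p ∧ z + e * x < p ∧ (e + 1) * y ≠ z + e * x := by
  have b1 : e * x ≤ e * e := Nat.mul_le_mul_left e hx
  have b2 : 1 * L ≤ e * L := Nat.mul_le_mul_right L he
  have b3 : L = e * e + 2 * e + 1 := by rw [hL]; ring
  simp only [add_mul, one_mul] at *
  rcases hy with hy | rfl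
  · have : e * y ≤ e * e := Nat.mul_le_mul_left e hy.le
    omega
  · rw [mul_add]
    omega

theorem base_large {e : ℕ} (hm : 2 ≤ m) (hd : m ≤ e + 1) : ∃ v, Has m True v (v + (e + 1)) := by
  classical
  obtain ⟨L, hL⟩ : ∃ L, L = (e + 1) ^ 2 := ⟨_, rfl⟩
  obtain ⟨p, hp, hpp⟩ := Nat.exists_infinite_primes ((e + 2) * L + (e + 2))
  have := Fact.mk hpp
  have hLp : L + (e + 1) < p := by nlinarith
  have nz : ∀ t : ℕ, 0 < t → t ≤ e + 1 → (t : ZMod p) ≠ 0 := fun t h h' a => by
    have := Nat.le_of_dvd h ((ZMod.natCast_eq_zero_iff _ _).1 a)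
    omega
  let R : Finset (ZMod p) := univ.filter fun i => i.val < L ∨ L + (e + 1) ≤ i.val
  let g : ZMod p → ZMod p := fun i => if i.val < L then 1 else 0
  let f : Ix m → ZMod p → ZMod p := fun k i =>
    if k = 1 then 0 else g i + ((e + 3 - k : ℕ) : ZMod p)⁻¹ * i
  have hR : ∀ i, i ∈ R ↔ i.val < L ∨ L + (e + 1) ≤ i.val := fun i => by simp [R]
  have hcard : R.card + (e + 1) = p := by
    have h1 : (univ.filter fun i : ZMod p => ¬ (i.val < L ∨ L + (e + 1) ≤ i.val)).card =
        (Ico L (L + (e + 1))).card := by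
      refine card_nbij' ZMod.val Nat.cast (fun i hi => by simpa using hi) (fun j hj => ?_)
        (fun i _ => ZMod.natCast_zmod_val i) fun j hj => ?_ <;>
        have := ZMod.val_cast_of_lt ((mem_Ico.1 hj).2.trans hLp)
      · simpa [this] using hj
      · exact this
    have h2 := card_filter_add_card_filter_not (s := (univ : Finset (ZMod p)))
      fun i => i.val < L ∨ L + (e + 1) ≤ i.val
    rwa [h1, Nat.card_Ico, Nat.add_sub_cancel_left, card_univ, ZMod.card] at h2
  have k2 : ∀ k : Ix m, k ≠ 0 → k ≠ 1 → 0 < e + 3 - k ∧ e + 3 - k ≤ e + 1 := fun k h0 h1 => by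
    have := k.2
    have : (k : ℕ) ≠ 0 := fun a => h0 (Fin.ext a)
    have : (k : ℕ) ≠ 1 := fun a => h1 (Fin.ext a)
    omega
  have sh : ∀ (t : ℕ) (i : ZMod p), t ≤ e + 1 → i.val < L → (i + t).val = i.val + t := by
    intro t i h h'
    rw [ZMod.val_add_of_lt] <;> rw [ZMod.val_cast_of_lt (by omega)]
    omega
  have inj : ∀ t : ℕ, 0 < t → t ≤ e + 1 → ∀ i ∈ R, ∀ j ∈ R,
      g i + (t : ZMod p)⁻¹ * i = g j + (t : ZMod p)⁻¹ * j → i = j := by
    intro t h h' i hi j hj a
    have b : i + t * g i = j + t * g j := by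
      have := mul_inv_cancel₀ (nz t h h')
      linear_combination t * a - (i - j) * this
    rw [hR] at hi hj
    simp only [g] at b
    split_ifs at b with c c' c'
    · exact add_right_cancel b
    · rw [mul_one, mul_zero, add_zero] at b
      have := sh t i h' c
      rw [b] at this
      omega
    · rw [mul_one, mul_zero, add_zero] at b
      have := sh t j h' c'
      rw [← b] at this
      omega
    · exact add_right_cancel b
  have hit : ∀ t : ℕ, 0 < t → t ≤ e + 1 → ∀ y : ZMod p,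
      (∀ i ∈ R, y ≠ g i + (t : ZMod p)⁻¹ * i) →
      (t * y).val < t ∨ (L + t ≤ (t * y).val ∧ (t * y).val < L + (e + 1)) := by
    intro t h h' y hy
    have c := inv_mul_cancel₀ (nz t h h')
    by_contra a
    rcases le_or_gt (L + (e + 1)) (t * y).val with b | b
    · refine hy (t * y) ((hR _).2 (Or.inr b)) ?_
      simp only [g, if_neg (show ¬ (t * y).val < L by omega)]
      linear_combination -y * c
    · have b' : (t * y - t).val = (t * y).val - t := by
        rw [ZMod.val_sub] <;> rw [ZMod.val_cast_of_lt (by omega)]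
        omega
      refine hy (t * y - t) ((hR _).2 (Or.inl (by omega))) ?_
      simp only [g, if_pos (show (t * y - t).val < L by omega)]
      linear_combination (1 - y) * c
  refine ⟨R.card, ?_⟩
  rw [hcard.trans (ZMod.card p).symm]
  refine has_dm True R f (fun k l hk hl hkl i hi j hj a => ?_) fun _ x => ?_
  · simp only [f] at a
    by_cases h1 : k = 1
    · have h2 : l ≠ 1 := fun b => hkl (h1.trans b.symm)
      simp only [if_pos h1, if_neg h2, zero_sub, neg_inj] at a
      exact inj _ (k2 l hl h2).1 (k2 l hl h2).2 i hi j hj a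
    by_cases h2 : l = 1
    · simp only [if_neg h1, if_pos h2, sub_zero] at a
      exact inj _ (k2 k hk h1).1 (k2 k hk h1).2 i hi j hj a
    simp only [if_neg h1, if_neg h2, add_sub_add_left_eq_sub, ← sub_mul] at a
    refine mul_left_cancel₀ (sub_ne_zero.2 fun b => hkl (Fin.ext ?_)) a
    have := congrArg ZMod.val (inv_injective b)
    have := k2 k hk h1
    have := k2 l hl h2
    rw [ZMod.val_cast_of_lt (by omega), ZMod.val_cast_of_lt (by omega)] at *
    omega
  · by_contra a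
    push Not at a
    let c2 : Ix m := ⟨2, by omega⟩
    let c3 : Ix m := ⟨3, by omega⟩
    have n2 : c2 ≠ 0 ∧ c2 ≠ 1 := ⟨Fin.ne_of_val_ne (by simp [c2]), Fin.ne_of_val_ne (by simp [c2])⟩
    have n3 : c3 ≠ 0 ∧ c3 ≠ 1 := ⟨Fin.ne_of_val_ne (by simp [c3]), Fin.ne_of_val_ne (by simp [c3])⟩
    have f1 : ∀ i, f 1 i = 0 := fun i => if_pos rfl
    have f2 : ∀ i, f c2 i = g i + ((e + 1 : ℕ) : ZMod p)⁻¹ * i := fun i => if_neg n2.2
    have f3 : ∀ i, f c3 i = g i + ((e : ℕ) : ZMod p)⁻¹ * i := fun i => if_neg n3.2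
    have a2 := hit (e + 1) (by omega) le_rfl (x c2 - x 1) fun i hi => by
      simpa only [f1, f2, sub_zero] using a c2 1 n2.1 i10 n2.2 i hi
    have a3 := hit e (by omega) (by omega) (x c3 - x 1) fun i hi => by
      simpa only [f1, f3, sub_zero] using a c3 1 n3.1 i10 n3.2 i hi
    have a4 : ((e + 1 : ℕ) : ZMod p) * e * (x c3 - x c2) ∉ R := fun hi => by
      refine a c3 c2 n3.1 n2.1 (Fin.ne_of_val_ne (by simp [c2, c3])) _ hi ?_
      have b1 := inv_mul_cancel₀ (nz e (by omega) (by omega))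
      have b2 := inv_mul_cancel₀ (nz (e + 1) (by omega) le_rfl)
      rw [f2, f3]
      push_cast at b2 ⊢
      linear_combination (x c3 - x c2) * (e * b2 - (e + 1) * b1)
    rw [hR] at a4
    generalize hξ : (((e + 1 : ℕ) : ZMod p) * (x c2 - x 1)) = ξ at a2
    generalize hη : ((e : ZMod p) * (x c3 - x 1)) = η at a3
    generalize hζ : ((e + 1 : ℕ) : ZMod p) * e * (x c3 - x c2) = ζ at a4
    have a5 : (((e + 1) * η.val : ℕ) : ZMod p) = (ζ.val + e * ξ.val : ℕ) := by
      push_cast at hξ hζ ⊢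
      simp only [ZMod.natCast_zmod_val]
      rw [← hξ, ← hη, ← hζ]
      ring
    obtain ⟨b1, b2, b3⟩ := base_arith (e := e) (x := ξ.val) (y := η.val) (z := ζ.val) (by omega)
      hL hp (by omega) (by omega) (by omega) (by omega)
    have a6 := congrArg ZMod.val a5
    rw [ZMod.val_cast_of_lt b1, ZMod.val_cast_of_lt b2] at a6
    exact b3 a6

theorem has_fixed (hm : 2 ≤ m) (d : ℕ) : ∃ N, ∀ r, N ≤ r → 0 < d → Has m True r (r + d) := by
  rcases d with _ | e
  · exact ⟨0, fun _ _ h => absurd h (lt_irrefl 0)⟩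
  obtain ⟨v, hv⟩ : ∃ v, Has m True v (v + (e + 1)) := by
    rcases lt_or_ge (e + 1) m with h | h
    · exact ⟨1, add_comm (e + 1) 1 ▸ base_small h⟩
    · exact base_large hm h
  obtain ⟨w, hw⟩ := has_mols m
  obtain ⟨K, hK⟩ := has_mols (m + 1)
  let T := K + v + (e + 1)
  let H := (w + 2) * (T + (w + 1)) + T
  refine ⟨v + (T + (w + 1)) + (w + 1) * (H + T + (w + 1)), fun r hr _ => ?_⟩
  obtain ⟨b, b1, b2, b3⟩ := ex_mod T (w + 1) (r - v) (by omega)
  obtain ⟨a, ha⟩ := (Nat.modEq_iff_dvd' (by omega)).1 b3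
  have h1 : H + T + (w + 1) ≤ a :=
    Nat.le_of_mul_le_mul_left (c := w + 1) (by omega) (by omega)
  obtain ⟨t, rfl⟩ : ∃ t, a = b + t := ⟨a - b, by omega⟩
  have h2 : (w + 2) * b ≤ (w + 2) * (T + (w + 1)) := Nat.mul_le_mul_left _ b2.le
  have h3 := has_hole (hw (w + 2) (by omega)) (hw _ (by omega)) (hK b (by omega)) (by omega)
    (by omega) hv
  have h4 := has_hole (hw (w + 1) (by omega)) (hw _ (by omega)) (hK t (by omega)) (by omega)
    (by omega) h3
  have e1 : r = (w + 1) * t + ((w + 2) * b + v) := by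
    have : r = v + b + (w + 1) * (b + t) := by omega
    rw [this]
    ring
  rw [e1]
  simpa only [add_assoc] using h4

/-! ### All parameters -/

theorem sum_ite_lt {t j : ℕ} (h : j ≤ t) (c : ℕ) :
    ∑ z : Fin t, (if z.val < j then c else 0) = j * c := by
  rw [Fin.sum_univ_eq_sum_range (fun z => if z < j then c else 0), ← sum_filter, sum_const,
    smul_eq_mul]
  rw [show (range t).filter (· < j) = range j from
    Finset.ext fun z => by simp only [mem_filter, mem_range]; omega, card_range]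

theorem has_all (hm : 2 ≤ m) :
    ∃ N, ∀ n, N ≤ n → ∀ r, n < (m + 1) * r → r < n → Has m True r n := by
  obtain ⟨a, ha⟩ := has_mols m
  obtain ⟨K, hK⟩ := has_mols (m + 1)
  choose f hf using has_fixed hm
  obtain ⟨L, hL⟩ : ∃ L, L = 2 * a + 7 := ⟨_, rfl⟩
  obtain ⟨q, hq⟩ : ∃ q, q = 3 * a + 11 := ⟨_, rfl⟩
  have E1 : Nonempty (Ing m q (a + 4)) := by
    rw [show q = a + 4 + L by omega]
    exact exists_ing (ha _ (by omega)) (ha _ (by omega)) ((ha _ (by omega)).restrict (by omega))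
  have E2 : Nonempty (Ing m q (a + 5)) := by
    rw [show q = a + 5 + (2 * a + 6) by omega]
    exact exists_ing (ha _ (by omega)) (ha _ (by omega)) ((ha _ (by omega)).restrict (by omega))
  have E3 : Nonempty (Ing m q q) := exists_ing (ha _ (by omega)) (ha _ (by omega)) (has_zero _)
  refine ⟨(m + 1) * a + 2 * (range (L * L)).sup f + (a + q) + q * (K + a + q),
    fun n hn r h1 h2 => ?_⟩
  obtain ⟨d, rfl⟩ := Nat.exists_eq_add_of_le h2.le
  by_cases hA : r ≤ d
  · have : a ≤ r := Nat.le_of_mul_le_mul_left (c := m + 1) (by omega) (by omega)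
    exact has_sum (ha r this) ((ha d (by omega)).restrict hA) (by rw [add_mul] at h1; omega)
  by_cases hD : d < L * L
  · have hle : f d ≤ (range (L * L)).sup f := Finset.le_sup (f := f) (mem_range.2 hD)
    exact hf d r (by omega) (by omega)
  obtain ⟨u, u1, u2, u3⟩ := ex_mod a q (r + d) (by omega)
  obtain ⟨t, ht⟩ := (Nat.modEq_iff_dvd' (by omega)).1 u3
  have t1 : K + a + q ≤ t := Nat.le_of_mul_le_mul_left (c := q) (by omega) (by omega)
  have e1 : r + d = q * t + u := by omega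
  have c1 := Nat.mul_div_le d L
  have c2 := Nat.lt_mul_div_succ d (show 0 < L by omega)
  have c3 : L ≤ d / L := (Nat.le_div_iff_mul_le (by omega)).2 (by omega)
  have c4 : d / L < t := (Nat.div_lt_iff_lt_mul (by omega)).2 (by subst hL hq; nlinarith)
  generalize d / L = j at c1 c2 c3 c4
  obtain ⟨y, hy⟩ : ∃ y, L * (j + 1) = d + y := Nat.exists_eq_add_of_le c2.le
  have y1 : y ≤ L := by rw [mul_add] at hy; omega
  let ρ : Fin t → ℕ := fun z => if z.val < y then a + 5 else if z.val < j + 1 then a + 4 else q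
  have hρ : ∀ z, ρ z + (if z.val < j + 1 then L else 0) = q + if z.val < y then 1 else 0 := by
    intro z
    simp only [ρ]
    split_ifs <;> omega
  have hs := sum_congr rfl fun z (_ : z ∈ univ) => hρ z
  rw [sum_add_distrib, sum_add_distrib, sum_ite_lt (by omega), sum_ite_lt (by omega), sum_const,
    card_univ, Fintype.card_fin, smul_eq_mul, mul_comm t, mul_comm (j + 1)] at hs
  have := has_bar (s := a + 4) (hK t (by omega)) ρ (fun z => by
      simp only [ρ]
      split_ifs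
      exacts [E2, E1, E3]) (ha u u1) (by omega) (fun z => by
      simp only [ρ]
      split_ifs <;> omega) (by omega) (by
      have := Nat.mul_le_mul_right ((a + 4) * t) (show 3 ≤ m + 1 by omega)
      subst hq
      nlinarith)
  rwa [← e1, show ∑ z, ρ z + u = r by omega] at this

/-- Translation to arrays. -/
theorem arrays_of_has {r n : ℕ} (h : Has m True r n) :
    ∃ A : Fin m → Fin r → Fin n → Fin n,
      (∀ s i, Function.Injective (A s i)) ∧
      (∀ s j, Function.Injective (fun i => A s i j)) ∧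
      (∀ s s', s ≠ s' →
        Function.Injective (fun p : Fin r × Fin n => (A s p.1 p.2, A s' p.1 p.2))) ∧
      ¬ ∃ a : Fin m → Fin n → Fin n,
          (∀ s, Function.Injective (a s)) ∧ (∀ s i j, a s j ≠ A s i j) ∧
          (∀ s s', s ≠ s' → ∀ i j j', (a s j, a s' j) ≠ (A s i j', A s' i j')) := by
  classical
  obtain ⟨D, hG0, hG1, hD⟩ := h.on (range r) (range n) (by simp) (by simp)
  have n0 : ∀ s : Fin m, (s.succ.succ : Ix m) ≠ 0 := fun s => Fin.succ_ne_zero _
  have n1 : ∀ s : Fin m, (s.succ.succ : Ix m) ≠ 1 := fun s => Fin.succ_succ_ne_one _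
  have m0 : ∀ p ∈ D.B, p 0 < r := fun p hp => mem_range.1 (hG0 ▸ D.mem p hp 0)
  have m1 : ∀ p ∈ D.B, ∀ k, k ≠ 0 → p k < n := fun p hp k hk =>
    mem_range.1 (hG1 k hk ▸ D.mem p hp k)
  have hex : ∀ (i : Fin r) (j : Fin n), ∃ p ∈ D.B, p 0 = i ∧ p 1 = j := fun i j =>
    D.cover i (by simp [hG0]) j (by simp [hG1 1 i10])
  choose blk hb h0 h1 using hex
  have huniq : ∀ i j i' j', blk i j = blk i' j' → i = i' ∧ j = j' := by
    intro i j i' j' e
    have e0 := congrFun e 0
    have e1 := congrFun e 1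
    rw [h0, h0] at e0
    rw [h1, h1] at e1
    exact ⟨Fin.ext e0, Fin.ext e1⟩
  have hblk : ∀ p ∈ D.B, ∃ i j, p = blk i j := fun p hp =>
    ⟨⟨p 0, m0 p hp⟩, ⟨p 1, m1 p hp 1 i10⟩,
      D.pack p hp _ (hb _ _) 0 1 i10.symm (by rw [h0]) (by rw [h1])⟩
  refine ⟨fun s i j => ⟨blk i j s.succ.succ, m1 _ (hb i j) _ (n0 s)⟩, ?_, ?_, ?_, ?_⟩
  · intro s i j j' e
    exact (huniq _ _ _ _ (D.pack _ (hb i j) _ (hb i j') 0 _ (n0 s).symm (by rw [h0, h0])
      (congrArg Fin.val e))).2
  · intro s j i i' e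
    exact (huniq _ _ _ _ (D.pack _ (hb i j) _ (hb i' j) 1 _ (n1 s).symm (by rw [h1, h1])
      (congrArg Fin.val e))).1
  · rintro s s' hs ⟨i, j⟩ ⟨i', j'⟩ e
    have := huniq _ _ _ _ (D.pack _ (hb i j) _ (hb i' j') _ _
      (fun a => hs (Fin.succ_injective _ (Fin.succ_injective _ a)))
      (congrArg Fin.val (congrArg Prod.fst e)) (congrArg Fin.val (congrArg Prod.snd e)))
    exact Prod.ext this.1 this.2
  · rintro ⟨a, ha, hc, hp⟩
    apply hD trivial
    let tr : Fin n → Ix m → ℕ := fun j => Fin.cons 0 (Fin.cons j fun s => a s j)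
    have t1 : ∀ j, tr j 1 = j := fun j => rfl
    have t2 : ∀ j (s : Fin m), tr j s.succ.succ = a s j := fun j s => rfl
    have cs : ∀ k : Ix m, k ≠ 0 → k = 1 ∨ ∃ s : Fin m, k = s.succ.succ := fun k hk => by
      obtain ⟨k, rfl⟩ := Fin.exists_succ_eq.2 hk
      exact (Fin.eq_zero_or_eq_succ k).imp (fun e => by rw [e]; rfl)
        fun ⟨s, e⟩ => ⟨s, by rw [e]⟩
    have c1 : ∀ j (s : Fin m), ¬ Cov D.B 1 s.succ.succ (tr j 1) (tr j s.succ.succ) := by
      rintro j s ⟨p, hp, e1, e2⟩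
      obtain ⟨i, j', rfl⟩ := hblk p hp
      obtain rfl : j' = j := Fin.ext ((h1 i j').symm.trans e1)
      exact hc s i j' (Fin.ext e2.symm)
    have hinj : ∀ j j' k, k ≠ 0 → tr j k = tr j' k → j = j' := by
      intro j j' k hk e
      rcases cs k hk with rfl | ⟨s, rfl⟩
      · exact Fin.ext e
      · exact ha s (Fin.ext e)
    refine ⟨univ.image tr, ?_, ?_, ?_, ?_⟩
    · rw [card_image_of_injective _ (fun j j' e => hinj j j' 1 i10 (congrFun e 1)), hG1 1 i10]
      simp
    · intro p hp k hk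
      obtain ⟨j, -, rfl⟩ := mem_image.1 hp
      rw [hG1 k hk, mem_range]
      rcases cs k hk with rfl | ⟨s, rfl⟩
      · exact j.2
      · exact (a s j).2
    · intro p hp p' hp' k hk e
      obtain ⟨j, -, rfl⟩ := mem_image.1 hp
      obtain ⟨j', -, rfl⟩ := mem_image.1 hp'
      rw [hinj j j' k hk e]
    · intro p hp' k l hk hl hkl
      obtain ⟨j, -, rfl⟩ := mem_image.1 hp'
      rcases cs k hk with rfl | ⟨s, rfl⟩ <;> rcases cs l hl with rfl | ⟨s', rfl⟩
      · exact absurd rfl hkl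
      · exact c1 j s'
      · exact fun h => c1 j s h.symm
      · rintro ⟨p, hp', e1, e2⟩
        obtain ⟨i, j', rfl⟩ := hblk p hp'
        exact hp s s' (fun e => hkl (by rw [e])) i j j'
          (Prod.ext (Fin.ext e1.symm) (Fin.ext e2.symm))

end Pool.Agent.P.MP_ef1b96_co.K
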