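import Pool.Agent.P.MP_ef1b96_co.K.Basic

/-!
A weighted form of Wilson's construction.
-/

set_option autoImplicit false

namespace Pool.Agent.P.MP_ef1b96_co.K

open Finset

variable {F : Type} {m : ℕ}

/-- A transversal design with one more group. -/
structure Master (m : ℕ) (F : Type) where
  Bl : Type
  π : Ix m → Bl → F
  ω : Bl → F
  hπ : ∀ k l, k ≠ l → ∀ β β', π k β = π k β' → π l β = π l β' → β = β'
  hω : ∀ k β β', π k β = π k β' → ω β = ω β' → β = β'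
  sπ : ∀ k l, k ≠ l → ∀ x y, ∃ β, π k β = x ∧ π l β = y
  sω : ∀ k x y, ∃ β, π k β = x ∧ ω β = y

theorem exists_master {t : ℕ} (h : Has (m + 1) False t t) : Nonempty (Master m (Fin t)) := by
  obtain ⟨B, hp, -, hc⟩ := h.sq (univ : Finset (Fin t)) (by simp)
  have h1 : ∀ k l : Ix m, k ≠ l → k.castSucc ≠ l.castSucc := fun k l h e =>
    h (Fin.castSucc_injective _ e)
  refine ⟨⟨B, fun k b => b.1 k.castSucc, fun b => b.1 (Fin.last _),
    fun k l hkl b b' e e' => Subtype.ext (hp _ b.2 _ b'.2 _ _ (h1 k l hkl) e e'),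
    fun k b b' e e' => Subtype.ext (hp _ b.2 _ b'.2 _ _ (Fin.castSucc_ne_last k) e e'),
    fun k l hkl x y => ?_, fun k x y => ?_⟩⟩
  · obtain ⟨p, hp, e⟩ := hc _ _ (h1 k l hkl) x (mem_univ _) y (mem_univ _)
    exact ⟨⟨p, hp⟩, e⟩
  · obtain ⟨p, hp, e⟩ := hc _ _ (Fin.castSucc_ne_last k) x (mem_univ _) y (mem_univ _)
    exact ⟨⟨p, hp⟩, e⟩

/-- The points of the new design. -/
abbrev Pt (F : Type) : Type := (Σ _ : F, ℕ) ⊕ F

/-- The global point of the local point `x` of coordinate `k` in the master block `β`;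
the local point `q` is the point at infinity. -/
def Master.φ (M : Master m F) (q : ℕ) (β : M.Bl) (k : Ix m) (x : ℕ) : Pt F :=
  if x = q then Sum.inr (M.ω β) else Sum.inl ⟨M.π k β, x⟩

theorem Master.φ_inf (M : Master m F) (q : ℕ) (β : M.Bl) (k : Ix m) :
    M.φ q β k q = Sum.inr (M.ω β) := by simp [Master.φ]

theorem Master.φ_fin (M : Master m F) {q x : ℕ} (β : M.Bl) (k : Ix m) (h : x ≠ q) :
    M.φ q β k x = Sum.inl ⟨M.π k β, x⟩ := by simp [Master.φ, h]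

theorem Master.φ_eq (M : Master m F) {q x x' : ℕ} {β β' : M.Bl} {k : Ix m}
    (h : M.φ q β k x = M.φ q β' k x') :
    x = x' ∧ (x = q → M.ω β = M.ω β') ∧ (x ≠ q → M.π k β = M.π k β') := by
  by_cases hx : x = q <;> by_cases hx' : x' = q
  · subst hx; subst hx'
    rw [M.φ_inf, M.φ_inf] at h
    exact ⟨rfl, fun _ => Sum.inr.inj h, fun h => absurd rfl h⟩
  · subst hx
    rw [M.φ_inf, M.φ_fin _ _ hx'] at h
    cases h
  · subst hx'
    rw [M.φ_inf, M.φ_fin _ _ hx] at h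
    cases h
  · rw [M.φ_fin _ _ hx, M.φ_fin _ _ hx'] at h
    have h' := Sum.inl.inj h
    simp only [Sigma.mk.injEq, heq_eq_eq] at h'
    exact ⟨h'.2, fun h => absurd h hx, fun _ => h'.1⟩

/-- The blocks of the new design. -/
def wB (M : Master m F) (q : ℕ) (J : M.Bl → Set (Ix m → ℕ)) (D : Des m F) : Set (Ix m → Pt F) :=
  {P | (∃ β, ∃ p ∈ J β, P = fun k => M.φ q β k (p k)) ∨ ∃ d ∈ D.B, P = fun k => Sum.inr (d k)}

/-- The groups of the new design. -/
def wG [Fintype F] (W : Ix m → F → ℕ) (D : Des m F) (k : Ix m) : Finset (Pt F) :=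
  (univ.sigma (fun g => range (W k g))).disjSum (D.G k)

theorem card_wG [Fintype F] (W : Ix m → F → ℕ) (D : Des m F) (k : Ix m) :
    (wG W D k).card = ∑ g, W k g + (D.G k).card := by
  simp [wG, card_disjSum, card_sigma]

theorem cov_wB (M : Master m F) (q : ℕ) (J : M.Bl → Set (Ix m → ℕ)) (D : Des m F) (β : M.Bl)
    {k l : Ix m} {x y : ℕ} (h : Cov (J β) k l x y) :
    Cov (wB M q J D) k l (M.φ q β k x) (M.φ q β l y) := by
  obtain ⟨p, hp, rfl, rfl⟩ := h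
  exact ⟨_, Or.inl ⟨β, p, hp, rfl⟩, rfl, rfl⟩

theorem cov_wB_inr (M : Master m F) (q : ℕ) (J : M.Bl → Set (Ix m → ℕ)) (D : Des m F)
    {k l : Ix m} {x y : F} (h : Cov D.B k l x y) :
    Cov (wB M q J D) k l (Sum.inr x) (Sum.inr y) := by
  obtain ⟨p, hp, rfl, rfl⟩ := h
  exact ⟨_, Or.inr ⟨p, hp, rfl⟩, rfl, rfl⟩

theorem pack_wB (M : Master m F) (q : ℕ) (J : M.Bl → Set (Ix m → ℕ)) (D : Des m F)
    (Jpack : ∀ β, Pack (J β))
    (Jtwo : ∀ β, ∀ p ∈ J β, ∀ k l, k ≠ l → p k = q → p l ≠ q) : Pack (wB M q J D) := by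
  have mixed : ∀ β, ∀ p ∈ J β, ∀ (d : Ix m → F) (k l : Ix m), k ≠ l →
      M.φ q β k (p k) = Sum.inr (d k) → M.φ q β l (p l) = Sum.inr (d l) → False := by
    intro β p hp d k l hkl e1 e2
    by_cases h1 : p k = q
    · rw [M.φ_fin _ _ (Jtwo β p hp k l hkl h1)] at e2
      cases e2
    · rw [M.φ_fin _ _ h1] at e1
      cases e1
  rintro P (⟨β, p, hp, rfl⟩ | ⟨d, hd, rfl⟩) P' (⟨β', p', hp', rfl⟩ | ⟨d', hd', rfl⟩) k l hkl e1 e2
  · obtain ⟨a1, a2, a3⟩ := M.φ_eq e1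
    obtain ⟨b1, b2, b3⟩ := M.φ_eq e2
    have hβ : β = β' := by
      by_cases h1 : p k = q
      · exact M.hω l β β' (b3 (Jtwo β p hp k l hkl h1)) (a2 h1)
      · by_cases h2 : p l = q
        · exact M.hω k β β' (a3 h1) (b2 h2)
        · exact M.hπ k l hkl β β' (a3 h1) (b3 h2)
    subst hβ
    rw [Jpack β p hp p' hp' k l hkl a1 b1]
  · exact (mixed β p hp d' k l hkl e1 e2).elim
  · exact (mixed β' p' hp' d k l hkl e1.symm e2.symm).elim
  · rw [D.pack d hd d' hd' k l hkl (Sum.inr.inj e1) (Sum.inr.inj e2)]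

/-- `x` is an admissible local point of coordinate `k` in the master block `β`. -/
def Adm (M : Master m F) (q : ℕ) (W : Ix m → F → ℕ) (D : Des m F) (β : M.Bl) (k : Ix m) (x : ℕ) :
    Prop := (x = q ∧ M.ω β ∈ D.G k) ∨ x < W k (M.π k β)

theorem cov_wB_of [Fintype F] (M : Master m F) (q : ℕ) (J : M.Bl → Set (Ix m → ℕ)) (D : Des m F)
    (W : Ix m → F → ℕ) (hW : ∀ k g, W k g ≤ q) {k l : Ix m} (hkl : k ≠ l)
    {x y : Pt F} (hx : x ∈ wG W D k) (hy : y ∈ wG W D l)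
    (hcov : ∀ β a b, Adm M q W D β k a → Adm M q W D β l b → M.φ q β k a = x → M.φ q β l b = y →
      ¬ (a = q ∧ b = q) → Cov (J β) k l a b)
    (hD : ∀ a b, x = Sum.inr a → y = Sum.inr b → Cov D.B k l a b) :
    Cov (wB M q J D) k l x y := by
  rcases x with ⟨g, a⟩ | a <;> rcases y with ⟨g', b⟩ | b
  · simp only [wG, inl_mem_disjSum, mem_sigma, mem_univ, true_and, mem_range] at hx hy
    obtain ⟨β, rfl, rfl⟩ := M.sπ k l hkl g g'
    have ha : a ≠ q := by have := hW k (M.π k β); omega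
    have hb : b ≠ q := by have := hW l (M.π l β); omega
    rw [← M.φ_fin β k ha, ← M.φ_fin β l hb]
    exact cov_wB M q J D β (hcov β a b (Or.inr hx) (Or.inr hy) (M.φ_fin β k ha) (M.φ_fin β l hb)
      (fun h => ha h.1))
  · simp only [wG, inl_mem_disjSum, inr_mem_disjSum, mem_sigma, mem_univ, true_and,
      mem_range] at hx hy
    obtain ⟨β, rfl, rfl⟩ := M.sω k g b
    have ha : a ≠ q := by have := hW k (M.π k β); omega
    rw [← M.φ_fin β k ha, ← M.φ_inf q β l]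
    exact cov_wB M q J D β (hcov β a q (Or.inr hx) (Or.inl ⟨rfl, hy⟩) (M.φ_fin β k ha)
      (M.φ_inf q β l) (fun h => ha h.1))
  · simp only [wG, inl_mem_disjSum, inr_mem_disjSum, mem_sigma, mem_univ, true_and,
      mem_range] at hx hy
    obtain ⟨β, rfl, rfl⟩ := M.sω l g' a
    have hb : b ≠ q := by have := hW l (M.π l β); omega
    rw [← M.φ_fin β l hb, ← M.φ_inf q β k]
    exact cov_wB M q J D β (hcov β q b (Or.inl ⟨rfl, hx⟩) (Or.inr hy) (M.φ_inf q β k)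
      (M.φ_fin β l hb) (fun h => hb h.2))
  · exact cov_wB_inr M q J D (hD a b rfl rfl)

/-- The weighted Wilson construction. -/
def wilson [Fintype F] (M : Master m F) (q : ℕ) (J : M.Bl → Set (Ix m → ℕ)) (D : Des m F)
    (W : Ix m → F → ℕ) (hW : ∀ k g, W k g ≤ q) (Jpack : ∀ β, Pack (J β))
    (Jtwo : ∀ β, ∀ p ∈ J β, ∀ k l, k ≠ l → p k = q → p l ≠ q)
    (Jmem : ∀ β, ∀ p ∈ J β, ∀ k, Adm M q W D β k (p k))
    (Jcov : ∀ β a b, Adm M q W D β 0 a → Adm M q W D β 1 b → ¬ (a = q ∧ b = q) →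
      Cov (J β) 0 1 a b) : Des m (Pt F) where
  G := wG W D
  B := wB M q J D
  mem := by
    rintro P (⟨β, p, hp, rfl⟩ | ⟨d, hd, rfl⟩) k
    · rcases Jmem β p hp k with ⟨h1, h2⟩ | h
      · simp only [h1, M.φ_inf, wG, inr_mem_disjSum]
        exact h2
      · have ha : p k ≠ q := by have := hW k (M.π k β); omega
        simp only [M.φ_fin β k ha, wG, inl_mem_disjSum, mem_sigma, mem_univ, true_and, mem_range]
        exact h
    · simp only [wG, inr_mem_disjSum]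
      exact D.mem d hd k
  pack := pack_wB M q J D Jpack Jtwo
  cover := by
    intro x hx y hy
    apply cov_wB_of M q J D W hW i10.symm hx hy
    · intro β a b h1 h2 _ _ h3
      exact Jcov β a b h1 h2 h3
    · rintro a b rfl rfl
      simp only [wG, inr_mem_disjSum] at hx hy
      exact D.cover a hx b hy

/-- An ingredient: `ρ` rows on `q` points, and the same with a row and a point at infinity (both
named `q`); all pairs of points below `ρ` or at infinity are covered. -/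
structure Ing (m q ρ : ℕ) where
  T0 : Set (Ix m → ℕ)
  T1 : Set (Ix m → ℕ)
  le : ρ ≤ q
  pack0 : Pack T0
  pack1 : Pack T1
  mem0 : ∀ p ∈ T0, p 0 < ρ ∧ ∀ k, k ≠ 0 → p k < q
  mem1 : ∀ p ∈ T1, (p 0 < ρ ∨ p 0 = q) ∧ ∀ k, k ≠ 0 → p k ≤ q
  two : ∀ p ∈ T1, ∀ k l, k ≠ l → p k = q → p l ≠ q
  cov0 : ∀ a < ρ, ∀ b < q, Cov T0 0 1 a b
  cov1 : ∀ a, a < ρ ∨ a = q → ∀ b ≤ q, ¬ (a = q ∧ b = q) → Cov T1 0 1 a b
  bar0 : ∀ k l, k ≠ l → ∀ a < ρ, ∀ b < ρ, Cov T0 k l a b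
  bar1 : ∀ k l, k ≠ l → ∀ a, a < ρ ∨ a = q → ∀ b, b < ρ ∨ b = q → ¬ (a = q ∧ b = q) →
    Cov T1 k l a b

/-- Squares on `A` with the constant block removed. -/
theorem hole {n : ℕ} (h : Has m False n n) (A : Finset ℕ) (hA : A.card = n) {q : ℕ} (hq : q ∈ A) :
    ∃ T : Set (Ix m → ℕ), Pack T ∧ (∀ p ∈ T, ∀ k, p k ∈ A) ∧
      (∀ p ∈ T, ∀ k l, k ≠ l → p k = q → p l ≠ q) ∧
      ∀ k l, k ≠ l → ∀ a ∈ A, ∀ b ∈ A, ¬ (a = q ∧ b = q) → Cov T k l a b := by
  obtain ⟨B, hp, hm, hc⟩ := h.sq A hA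
  obtain ⟨b, hb, -⟩ := hc 0 1 i10.symm q hq q hq
  have hs : ∀ k, ∀ x ∈ A, Equiv.swap (b k) q x ∈ A := fun k x hx => by
    rw [Equiv.swap_apply_def]
    split_ifs
    exacts [hq, hm b hb k, hx]
  refine ⟨{p | (fun k => Equiv.swap (b k) q (p k)) ∈ B ∧ p ≠ fun _ => q}, ?_, ?_, ?_, ?_⟩
  · intro p h1 p' h2 k l hkl e1 e2
    have := hp _ h1.1 _ h2.1 k l hkl (by simp only [e1]) (by simp only [e2])
    exact funext fun j => (Equiv.swap (b j) q).injective (congrFun this j)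
  · intro p h1 k
    simpa using hs k _ (hm _ h1.1 k)
  · intro p h1 k l hkl e1 e2
    have := hp _ h1.1 b hb k l hkl (by simp [e1]) (by simp [e2])
    exact h1.2 (funext fun j => (Equiv.swap (b j) q).injective (by simpa using congrFun this j))
  · intro k l hkl a ha c hc' hne
    obtain ⟨p, h1, e1, e2⟩ := hc k l hkl _ (hs k a ha) _ (hs l c hc')
    refine ⟨fun j => Equiv.swap (b j) q (p j), ⟨by simpa using h1, fun e => hne ⟨?_, ?_⟩⟩,
      by simp [e1], by simp [e2]⟩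
    · simpa [e1] using congrFun e k
    · simpa [e2] using congrFun e l

theorem exists_ing {s l : ℕ} (h0 : Has m False s s) (h1 : Has m False (s + 1) (s + 1))
    (h2 : Has m False (s + 1) l) : Nonempty (Ing m (s + l) s) := by
  have hA : (insert (s + l) (range s)).card = s + 1 := by
    rw [card_insert_of_notMem (by simp), card_range]
  have mA : ∀ x, x ∈ insert (s + l) (range s) ↔ x < s ∨ x = s + l := fun x => by
    rw [mem_insert, mem_range, or_comm]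
  obtain ⟨B, p0, m0, c0⟩ := h0.sq (range s) (by simp)
  obtain ⟨T, p1, m1, t1, c1⟩ := hole h1 _ hA (mem_insert_self _ _)
  obtain ⟨D, g0, g1, -⟩ := h2.on _ (Ico s (s + l)) hA (by simp)
  have m2 : ∀ p ∈ D.B, ∀ k, k ≠ 0 → s ≤ p k ∧ p k < s + l := fun p hp k hk => by
    simpa [g1 k hk] using D.mem p hp k
  have m3 : ∀ p ∈ D.B, p 0 < s ∨ p 0 = s + l := fun p hp => (mA _).1 (g0 ▸ D.mem p hp 0)
  have c2 : ∀ a, a < s ∨ a = s + l → ∀ b, s ≤ b → b < s + l → Cov D.B 0 1 a b :=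
    fun a ha b h h' => D.cover a (g0 ▸ (mA _).2 ha) b (by simp [g1 1 i10, h, h'])
  simp only [mem_range] at m0 c0
  simp only [mA] at m1 c1
  refine ⟨⟨B ∪ {p | p ∈ D.B ∧ p 0 < s}, T ∪ D.B, by omega,
    p0.union (D.pack.mono fun p hp => hp.1) {x | x < s} (fun p hp k _ => m0 p hp k)
      fun p hp k hk => (m2 p hp.1 k hk).1.not_gt,
    p1.union D.pack {x | x < s ∨ x = s + l} (fun p hp k _ => m1 p hp k)
      fun p hp k hk a => by have := m2 p hp k hk; rcases a with a | a <;> omega,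
    ?_, ?_, ?_, fun a ha b hb => ?_, fun a ha b hb hab => ?_,
    fun k l hkl a ha b hb => (c0 k l hkl a ha b hb).mono Set.subset_union_left,
    fun k l hkl a ha b hb hab => (c1 k l hkl a ha b hb hab).mono Set.subset_union_left⟩⟩
  · rintro p (hp | hp)
    · exact ⟨m0 p hp 0, fun k _ => by have := m0 p hp k; omega⟩
    · exact ⟨hp.2, fun k hk => (m2 p hp.1 k hk).2⟩
  · rintro p (hp | hp)
    · exact ⟨m1 p hp 0, fun k _ => by have := m1 p hp k; omega⟩
    · exact ⟨m3 p hp, fun k hk => (m2 p hp k hk).2.le⟩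
  · rintro p (hp | hp) k j hkj e
    · exact t1 p hp k j hkj e
    · have hk : k = 0 := by_contra fun hk => (m2 p hp k hk).2.ne e
      exact (m2 p hp j fun a => hkj (hk.trans a.symm)).2.ne
  · rcases lt_or_ge b s with h | h
    · exact (c0 0 1 i10.symm a ha b h).mono Set.subset_union_left
    · obtain ⟨p, hp, e1, e2⟩ := c2 a (Or.inl ha) b h hb
      exact ⟨p, Or.inr ⟨hp, e1 ▸ ha⟩, e1, e2⟩
  · by_cases h : b < s ∨ b = s + l
    · exact (c1 0 1 i10.symm a ha b h hab).mono Set.subset_union_left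
    · exact (c2 a ha b (by omega) (by omega)).mono Set.subset_union_right

/-- Wilson's construction with ingredients. -/
theorem wil {t q u v : ℕ} {mx : Prop} (hM : Has (m + 1) False t t) (ρ : Fin t → ℕ)
    (E : ∀ z, Nonempty (Ing m q (ρ z))) (h : Has m mx v u) (hvu : v ≤ u) (hut : u ≤ t) :
    ∃ (D : Des m (Fin t)) (D' : Des m (Pt (Fin t))), (mx → ¬ D.Ext) ∧
      D'.Size (∑ z, ρ z + v) (q * t + u) ∧
      (∀ k, k ≠ 0 → D'.G k = (univ.sigma fun _ => range q).disjSum (D.G k)) ∧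
      (∀ k l x y, Cov D.B k l x y → Cov D'.B k l (.inr x) (.inr y)) ∧
      ∀ k l, k ≠ 0 → l ≠ 0 → k ≠ l → ∀ g b, (∀ z, b < ρ z) →
        (∀ y ∈ D.G k, Cov D'.B k l (.inr y) (.inl ⟨g, b⟩)) ∧
        (v = u → ∀ g' a, (∀ z, a < ρ z) → Cov D'.B k l (.inl ⟨g', a⟩) (.inl ⟨g, b⟩)) := by
  classical
  obtain ⟨M⟩ := exists_master hM
  replace E := fun z => (E z).some
  obtain ⟨U, -, hU⟩ := Finset.exists_subset_card_eq (s := (univ : Finset (Fin t))) (n := u)
    (by simpa using hut)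
  obtain ⟨V, hVU, hV⟩ := Finset.exists_subset_card_eq (s := U) (n := v) (by omega)
  obtain ⟨D, hG0, hG1, hD⟩ := h.on V U hV hU
  let J : M.Bl → Set (Ix m → ℕ) := fun β =>
    if M.ω β ∈ U then {p | p ∈ (E (M.π 0 β)).T1 ∧ (p 0 = q → M.ω β ∈ V)} else (E (M.π 0 β)).T0
  let W : Ix m → Fin t → ℕ := fun k g => if k = 0 then ρ g else q
  have hW0 : ∀ g, W 0 g = ρ g := fun g => if_pos rfl
  have hW1 : ∀ k, k ≠ 0 → ∀ g, W k g = q := fun k hk g => if_neg hk
  have hW : ∀ k g, W k g ≤ q := fun k g => by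
    by_cases hk : k = 0
    · rw [hk, hW0]; exact (E g).le
    · rw [hW1 k hk]
  have J1 : ∀ β, M.ω β ∈ U → J β = {p | p ∈ (E (M.π 0 β)).T1 ∧ (p 0 = q → M.ω β ∈ V)} :=
    fun β hβ => if_pos hβ
  have J0 : ∀ β, M.ω β ∉ U → J β = (E (M.π 0 β)).T0 := fun β hβ => if_neg hβ
  have Jpack : ∀ β, Pack (J β) := fun β => by
    by_cases hβ : M.ω β ∈ U
    · rw [J1 β hβ]; exact (E _).pack1.mono fun p hp => hp.1
    · rw [J0 β hβ]; exact (E _).pack0
  have Jmem : ∀ β, ∀ p ∈ J β, ∀ k, Adm M q W D β k (p k) := by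
    intro β p hp k
    by_cases hβ : M.ω β ∈ U
    · rw [J1 β hβ] at hp
      obtain ⟨a1, a2⟩ := (E _).mem1 p hp.1
      by_cases hk : k = 0
      · subst hk
        exact a1.symm.imp (fun e => ⟨e, hG0 ▸ hp.2 e⟩) fun e => (hW0 _).symm ▸ e
      · exact (a2 k hk).eq_or_lt.imp (fun e => ⟨e, (hG1 k hk).symm ▸ hβ⟩)
          fun e => (hW1 k hk _).symm ▸ e
    · rw [J0 β hβ] at hp
      obtain ⟨a1, a2⟩ := (E _).mem0 p hp
      right
      by_cases hk : k = 0
      · rw [hk, hW0]; exact a1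
      · rw [hW1 k hk]; exact a2 k hk
  have Jtwo : ∀ β, ∀ p ∈ J β, ∀ k l, k ≠ l → p k = q → p l ≠ q := by
    intro β p hp k l hkl e
    by_cases hβ : M.ω β ∈ U
    · rw [J1 β hβ] at hp
      exact (E _).two p hp.1 k l hkl e
    · rw [J0 β hβ] at hp
      obtain ⟨a1, a2⟩ := (E _).mem0 p hp
      by_cases hl : l = 0
      · exact hl ▸ (a1.trans_le (E _).le).ne
      · exact (a2 l hl).ne
  have Jcov : ∀ β a b, Adm M q W D β 0 a → Adm M q W D β 1 b → ¬ (a = q ∧ b = q) →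
      Cov (J β) 0 1 a b := by
    intro β a b ha hb hab
    rw [Adm, hG0, hW0] at ha
    rw [Adm, hG1 1 i10, hW1 1 i10] at hb
    by_cases hβ : M.ω β ∈ U
    · rw [J1 β hβ]
      obtain ⟨p, hp, h0, h1⟩ := (E (M.π 0 β)).cov1 a (ha.symm.imp_right And.left) b (by omega) hab
      refine ⟨p, ⟨hp, fun e => ?_⟩, h0, h1⟩
      have := (E (M.π 0 β)).le
      exact (ha.resolve_right (by omega)).2
    · rw [J0 β hβ]
      exact (E _).cov0 a (ha.resolve_left fun e => hβ (hVU e.2)) b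
        (hb.resolve_left fun e => hβ e.2)
  refine ⟨D, wilson M q J D W hW Jpack Jtwo Jmem Jcov, hD, ⟨?_, fun k hk => ?_⟩,
    fun k hk => by simp only [wilson, wG, hW1 k hk], fun k l x y => cov_wB_inr M q J D,
    fun k l hk hl hkl g b hb => ⟨fun y hy => ?_, fun e g' a ha => ?_⟩⟩
  · simp [wilson, card_wG, hW0, hG0, hV]
  · simp [wilson, card_wG, hW1 k hk, hG1 k hk, hU, mul_comm]
  · obtain ⟨β, rfl, rfl⟩ := M.sω l g y
    have hq : b ≠ q := ((hb (M.π 0 β)).trans_le (E _).le).ne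
    rw [← M.φ_fin β l hq, ← M.φ_inf q β k]
    refine cov_wB M q J D β ?_
    rw [J1 β (hG1 k hk ▸ hy)]
    obtain ⟨p, hp, h0, h1⟩ := (E (M.π 0 β)).bar1 k l hkl q (Or.inr rfl) b (Or.inl (hb _))
      fun e => hq e.2
    exact ⟨p, ⟨hp, fun e => absurd h0 ((E _).two p hp 0 k hk.symm e)⟩, h0, h1⟩
  · obtain ⟨β, rfl, rfl⟩ := M.sπ k l hkl g' g
    have hq : b ≠ q := ((hb (M.π 0 β)).trans_le (E _).le).ne
    have hq' : a ≠ q := ((ha (M.π 0 β)).trans_le (E _).le).ne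
    rw [← M.φ_fin β l hq, ← M.φ_fin β k hq']
    refine cov_wB M q J D β ?_
    by_cases hβ : M.ω β ∈ U
    · rw [J1 β hβ]
      obtain ⟨p, hp, h0⟩ := (E (M.π 0 β)).bar1 k l hkl a (Or.inl (ha _)) b (Or.inl (hb _))
        fun e => hq e.2
      exact ⟨p, ⟨hp, fun _ => by rwa [eq_of_subset_of_card_le hVU (by omega)]⟩, h0⟩
    · rw [J0 β hβ]
      exact (E _).bar0 k l hkl a (ha _) b (hb _)

/-- Filling a hole. -/
theorem has_hole {q t u v : ℕ} {mx : Prop} (h0 : Has m False q q)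
    (h1 : Has m False (q + 1) (q + 1)) (hM : Has (m + 1) False t t) (hvu : v ≤ u) (hut : u ≤ t)
    (h : Has m mx v u) : Has m mx (q * t + v) (q * t + u) := by
  classical
  obtain ⟨D, D', hD, hs, hG, c1, c2⟩ := wil (q := q) hM (fun _ => q)
    (fun _ => exists_ing h0 h1 (has_zero _)) h hvu hut
  rw [sum_const, card_univ, Fintype.card_fin, smul_eq_mul, mul_comm t] at hs
  refine ⟨_, D', hs, fun hmx => ?_⟩
  rintro ⟨T, hc, hm, hi, hu⟩
  apply hD hmx
  have key : ∀ P ∈ T, ∀ k l, k ≠ 0 → l ≠ 0 → ∀ y, P k = Sum.inr y → ∃ z, P l = Sum.inr z := by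
    intro P hP k l hk hl y hy
    by_cases hkl : k = l
    · exact ⟨y, hkl ▸ hy⟩
    cases hz : P l with
    | inr z => exact ⟨z, rfl⟩
    | inl z =>
      have a1 := hm P hP k hk
      have a2 := hm P hP l hl
      rw [hG k hk, hy, inr_mem_disjSum] at a1
      rw [hG l hl, hz, inl_mem_disjSum, mem_sigma, mem_range] at a2
      refine (hu P hP k l hk hl hkl ?_).elim
      rw [hy, hz]
      exact (c2 k l hk hl hkl z.1 z.2 fun _ => a2.2).1 y a1
  let pr : Pt (Fin t) → Fin t := Sum.elim (fun z => z.1) id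
  let T' := T.filter (fun P => ∃ y, P 1 = Sum.inr y)
  have hT' : ∀ P ∈ T', ∀ k, k ≠ 0 → P k = Sum.inr (pr (P k)) := by
    intro P hP k hk
    obtain ⟨hP, y, hy⟩ := mem_filter.1 hP
    obtain ⟨z, hz⟩ := key P hP 1 k i10 hk y hy
    rw [hz]; rfl
  have hinj : ∀ P ∈ T', ∀ P' ∈ T', ∀ k, k ≠ 0 → pr (P k) = pr (P' k) → P = P' := by
    intro P hP P' hP' k hk e
    apply hi P (mem_filter.1 hP).1 P' (mem_filter.1 hP').1 k hk
    rw [hT' P hP k hk, hT' P' hP' k hk, e]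
  have hmem : ∀ P ∈ T', ∀ k, k ≠ 0 → pr (P k) ∈ D.G k := by
    intro P hP k hk
    have := hm P (mem_filter.1 hP).1 k hk
    rwa [hT' P hP k hk, hG k hk, inr_mem_disjSum] at this
  refine ⟨T'.image (fun P k => pr (P k)), ?_, ?_, ?_, ?_⟩
  · rw [card_image_of_injOn]
    · apply Finset.card_bij (fun P _ => pr (P 1))
      · intro P hP; exact hmem P hP 1 i10
      · intro P hP P' hP' e; exact hinj P hP P' hP' 1 i10 e
      · intro y hy
        obtain ⟨P, hP, e⟩ := ext_surj D' hs hc hm hi 1 i10 (Sum.inr y)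
          (by rwa [hG 1 i10, inr_mem_disjSum])
        refine ⟨P, mem_filter.2 ⟨hP, y, e⟩, ?_⟩
        rw [e]; rfl
    · intro P hP P' hP' e
      exact hinj P hP P' hP' 1 i10 (congrFun e 1)
  · intro p hp k hk
    obtain ⟨P, hP, rfl⟩ := mem_image.1 hp
    exact hmem P hP k hk
  · intro p hp p' hp' k hk e
    obtain ⟨P, hP, rfl⟩ := mem_image.1 hp
    obtain ⟨P', hP', rfl⟩ := mem_image.1 hp'
    rw [hinj P hP P' hP' k hk e]
  · intro p hp k l hk hl hkl hcov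
    obtain ⟨P, hP, rfl⟩ := mem_image.1 hp
    apply hu P (mem_filter.1 hP).1 k l hk hl hkl
    rw [hT' P hP k hk, hT' P hP l hl]
    exact c1 k l _ _ hcov

/-- The barrier construction. -/
theorem has_bar {q t u s : ℕ} (hM : Has (m + 1) False t t) (ρ : Fin t → ℕ)
    (E : ∀ z, Nonempty (Ing m q (ρ z))) (h : Has m False u u) (hut : u ≤ t) (hs : ∀ z, s ≤ ρ z)
    (hq : s ≤ q) (hb : q * t + u < (m + 1) * (s * t)) :
    Has m True (∑ z, ρ z + u) (q * t + u) := by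
  obtain ⟨D, D', -, hz, hG, -, c2⟩ := wil hM ρ E h le_rfl hut
  refine ⟨_, D', hz, fun _ => not_ext_of_barrier D' hz
    ((univ.sigma fun _ => range s).disjSum ∅) (fun k hk => ?_) ?_ ?_⟩
  · rw [hG k hk]
    exact disjSum_mono (sigma_mono le_rfl fun _ => range_mono hq) (empty_subset _)
  · rintro k l hk hl hkl (x | x) hx (y | y) hy <;>
      simp only [inl_mem_disjSum, inr_mem_disjSum, mem_sigma, mem_range, notMem_empty] at hx hy
    exact (c2 k l hk hl hkl y.1 y.2 fun z => hy.2.trans_le (hs z)).2 rfl x.1 x.2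
      fun z => hx.2.trans_le (hs z)
  · simpa [card_disjSum, card_sigma, mul_comm t] using hb

end Pool.Agent.P.MP_ef1b96_co.K
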